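import Pool.Agent.P.MP_257122_al.TNon

/-!
# The isomorphism problem for finitely generated soluble groups of finite rank is decidable
-/

namespace Pool.Agent.Results.MP_257122_al.IsoDecidable

open Pool.Agent.P.MP_257122_al

/-- `G` has finite (Pruefer) rank: for some `r`, every finitely generated subgroup of `G` can be
generated by at most `r` elements. -/
def FiniteRank (G : Type) [Group G] : Prop :=
  ∃ r : ℕ, ∀ H : Subgroup G, H.FG →
    ∃ s : Finset G, s.card ≤ r ∧ Subgroup.closure (s : Set G) = H

/-- A description `(d, n, W)`: a derived length `d`, the size `n` of the alphabet, and a finite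
list `W` of words; a word is a list of pairs (index of a letter, sign). -/
abbrev Description : Type := ℕ × ℕ × List (List (ℕ × Bool))

/-- The element of the free group on `n` letters spelled by a word: `(i, true)` is the `i`-th
generator, `(i, false)` its inverse; an index outside the alphabet is skipped. -/
def word (n : ℕ) (w : List (ℕ × Bool)) : FreeGroup (Fin n) :=
  (w.map fun l => if h : l.1 < n then
    cond l.2 (FreeGroup.of (⟨l.1, h⟩ : Fin n)) (FreeGroup.of (⟨l.1, h⟩ : Fin n))⁻¹ else 1).prod

/-- The subgroup `N F^(d)`: the normal closure of the words joined with the `d`-th term of the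
derived series of the free group. -/
def relations (D : Description) : Subgroup (FreeGroup (Fin D.2.1)) :=
  Subgroup.normalClosure {g | g ∈ D.2.2.map (word D.2.1)} ⊔
    derivedSeries (FreeGroup (Fin D.2.1)) D.1

instance relations_normal (D : Description) : (relations D).Normal :=
  inferInstanceAs (Subgroup.normalClosure {g | g ∈ D.2.2.map (word D.2.1)} ⊔
    derivedSeries (FreeGroup (Fin D.2.1)) D.1).Normal

/-- The group `F / (N F^(d))` described by `D`. -/
abbrev Described (D : Description) : Type := FreeGroup (Fin D.2.1) ⧸ relations D

theorem rep_list {α : Type} [Rep α] [Encodable α] (h : ∀ x : α, Rep.R (Encodable.encode x) x)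
    (l : List α) : Rep.R (Encodable.encode l) l := by
  have e : Encodable.encode l = Encodable.encode (l.map Encodable.encode) := by
    induction l with
    | nil => rfl
    | cons x l ih => simp only [List.map_cons, Encodable.encode_list_cons, ih]; rfl
  show List.Forall₂ Rep.R (Denumerable.ofNat (List ℕ) (Encodable.encode l)) l
  rw [e, Denumerable.ofNat_encode, List.forall₂_map_left_iff]
  exact List.forall₂_same.2 fun x _ => h x

theorem rep_prod {α β : Type} [Rep α] [Encodable α] [Rep β] [Encodable β]
    (h : ∀ x : α, Rep.R (Encodable.encode x) x) (h' : ∀ x : β, Rep.R (Encodable.encode x) x)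
    (p : α × β) : Rep.R (Encodable.encode p) p := by
  obtain ⟨x, y⟩ := p
  show Rep.R (Nat.pair _ _).unpair.1 x ∧ Rep.R (Nat.pair _ _).unpair.2 y
  rw [Nat.unpair_pair]
  exact ⟨h x, h' y⟩

theorem rep_descr (D : Description) : Rep.R (Encodable.encode D) D :=
  rep_prod (fun _ => rfl) (rep_prod (fun _ => rfl) (rep_list (rep_list (rep_prod (fun _ => rfl)
    (fun b => by cases b <;> rfl))))) D

theorem cs_word : CS (fun p : ℕ × List (ℕ × Bool) => word p.1 p.2) := by
  unfold word
  aesop (config := { terminal := true, enableSimp := false, maxRuleApplications := 3000, maxRuleApplicationDepth := 70, assumptionTransparency := .reducible }) (rule_sets := [-default, -builtin, Restrict]) (erase CS.mapp, CS.mlam)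

/-- The presentation attached to a description. -/
def toPres (D : Description) : Pres := ⟨D.2.1, D.1, D.2.2.map (word D.2.1)⟩

theorem cs_toPres : CS toPres := by
  unfold toPres
  refine CS.sigmaIntro ?_ ?_ <;> dsimp only
  · exact CS.id.snd.fst
  · refine CS.pair CS.id.fst (CS.map (CS.lam ?_) CS.id.snd.snd)
    exact cs_word.comp (g := fun p : (Σ _ : Description, List (ℕ × Bool)) => (p.1.2.1, p.2))
      (CS.pair CS.id.sfst.snd.fst CS.id.ssnd)

theorem result : ∃ f : Description × Description →. Bool, Partrec f ∧
    ∀ D E : Description, FiniteRank (Described D) → FiniteRank (Described E) →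
      ∃ r ∈ f (D, E), (r = true ↔ Nonempty (Described D ≃* Described E)) := by
  let A : Type := {a : Description × Description //
    FiniteRank (Described a.1) ∧ FiniteRank (Described a.2)}
  let g : A → PP := fun a => ⟨(toPres a.1.1, toPres a.1.2), a.2⟩
  have hg : CS g := (CS.pair (cs_toPres.comp CS.id.val.fst) (cs_toPres.comp CS.id.val.snd) :
    CS (fun a : A => (toPres a.1.1, toPres a.1.2)))
  obtain ⟨f, hf, h⟩ := exists_decider (cs_iso.comp hg) (cs_nonIso.comp hg)
  refine ⟨fun a => f (Encodable.encode a), hf.comp Computable.encode, fun D E hD hE => ?_⟩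
  exact h (Encodable.encode (D, E)) ⟨(D, E), hD, hE⟩ (rep_prod rep_descr rep_descr (D, E))

end Pool.Agent.Results.MP_257122_al.IsoDecidable
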