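import Pool.Agent.P.MP_257122_al.X.Inp

/-!
# The isomorphism problem for finitely generated virtually soluble groups of rational matrices
-/

namespace Pool.Agent.Results.MP_257122_al.IsoRationalMatrices

open Pool.Agent.P.MP_257122_al

/-- The rational number `(p - q) / (r + 1)` given by the triple `(p, q, r)`. -/
def entry (e : ℕ × ℕ × ℕ) : ℚ := ((e.1 : ℚ) - (e.2.1 : ℚ)) / ((e.2.2 : ℚ) + 1)

/-- An input `(n, L)`: a size `n` and a finite list `L` of matrices, each a list of rows. -/
abbrev Input : Type := ℕ × List (List (List (ℕ × ℕ × ℕ)))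

/-- The `n × n` rational matrix given by a list of rows; missing entries are `0`. -/
def mat (n : ℕ) (M : List (List (ℕ × ℕ × ℕ))) : Matrix (Fin n) (Fin n) ℚ :=
  Matrix.of fun i j => entry ((M.getD i.1 []).getD j.1 (0, 0, 0))

/-- The subgroup of `GL_n(ℚ)` generated by the invertible matrices of the list. -/
def generated (D : Input) : Subgroup (GL (Fin D.1) ℚ) :=
  Subgroup.closure {g | g.val ∈ D.2.map (mat D.1)}

/-- `G` has a soluble subgroup of finite index. -/
def VirtuallySoluble (G : Type) [Group G] : Prop :=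
  ∃ H : Subgroup G, H.FiniteIndex ∧ Group.IsSolvable H

theorem cs_entry : CS entry :=
  CS.div MulF.rat InvF.rat
    (CS.sub AddF.rat NegF.rat (CS.natCast AddF.rat ZeroF.rat OneF.rat CS.id.fst)
      (CS.natCast AddF.rat ZeroF.rat OneF.rat CS.id.snd.fst))
    (CS.add AddF.rat (CS.natCast AddF.rat ZeroF.rat OneF.rat CS.id.snd.snd) (CS.one OneF.rat))

theorem cs_mats : CS (fun D : Input => D.2.map (mat D.1)) :=
  CS.map (CS.lam (CS.mlam (cs_entry.comp (CS.getD (CS.getD CS.id.sfst.ssnd
    (CS.finVal CS.id.ssnd.fst) CS.nil) (CS.finVal CS.id.ssnd.snd) CS.const)))) CS.id.snd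

theorem rep_input (D : Input) : Rep.R (Encodable.encode D) D :=
  X.rep_prod (fun _ => rfl) (X.rep_list (X.rep_list (X.rep_list
    (X.rep_prod (fun _ => rfl) (X.rep_prod (fun _ => rfl) fun _ => rfl))))) D

theorem result : ∃ f : Input × Input →. Bool, Partrec f ∧
    ∀ D E : Input, VirtuallySoluble (generated D) → VirtuallySoluble (generated E) →
      ∃ r ∈ f (D, E), (r = true ↔ Nonempty (generated D ≃* generated E)) := by
  let A : Type := {a : Input × Input //
    VirtuallySoluble (generated a.1) ∧ VirtuallySoluble (generated a.2)}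
  have h1 : CS (fun a : A => a.1.1) := CS.id.val.fst
  have h2 : CS (fun a : A => a.1.2) := CS.id.val.snd
  obtain ⟨k, k'⟩ := X.cs_isoMat h1.fst h2.fst (cs_mats.comp h1) (cs_mats.comp h2)
    (fun a => a.2.1) fun a => a.2.2
  obtain ⟨f, hf, h⟩ := exists_decider k k'
  refine ⟨fun a => f (Encodable.encode a), hf.comp Computable.encode, fun D E hD hE => ?_⟩
  exact h (Encodable.encode (D, E)) ⟨(D, E), hD, hE⟩ (X.rep_prod rep_input rep_input (D, E))

end Pool.Agent.Results.MP_257122_al.IsoRationalMatrices
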